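import Pool.Agent.Lib.MP_dbcba7_co.T5.Main

namespace Pool.Agent.Results.MP_dbcba7_co.FiveTiles

/-- For a finite abelian group A and a subset R with 1 to 5 elements, let G consist of all
translates of R × {0} and of {0} × R in A × A, and let F be the family of all unions of nonempty
subcollections of G. Then some point of A × A lies in at least half of the members of F. -/
theorem result :
    ∀ (A : Type) [AddCommGroup A] [Fintype A] [DecidableEq A] (R : Finset A),
      1 ≤ R.card → R.card ≤ 5 →
      ∀ G F : Finset (Finset (A × A)),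
        (∀ T, T ∈ G ↔ ∃ v : A × A,
          T = (R ×ˢ ({0} : Finset A)).image (· + v) ∨
          T = (({0} : Finset A) ×ˢ R).image (· + v)) →
        (∀ S, S ∈ F ↔
          ∃ C : Finset (Finset (A × A)), C ⊆ G ∧ C.Nonempty ∧ S = C.biUnion id) →
        ∃ x : A × A, F.card ≤ 2 * (F.filter (x ∈ ·)).card :=
  fun A _ _ _ R h1 h5 G F hG hF => Pool.Agent.Lib.MP_dbcba7_co.T5.main A R h1 h5 G F hG hF

end Pool.Agent.Results.MP_dbcba7_co.FiveTiles
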