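import Pool.Agent.FS.LinearFC.If
import Pool.Agent.FS.LinearFC.OnlyIf

namespace Pool.Agent.Results.MP_dbcba7_co.LinearFC

/-- Let `L` be a family of subsets of a nonempty finite set `X`, each with at least two points,
two distinct members sharing at most one point. Then every finite union-closed family containing
`L` has a point of `X` in at least half of its members if and only if there are nonnegative weights
on `X`, not all zero, such that for each point `x` and each choice of a nonempty subset `Y T` of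
`T` minus `x` for the members `T` through `x`, the weight of `x` is at most the sum over these `T`
of the total weight of `Y T` divided by `2^|Y T| - 1`. -/
theorem result {α : Type*} [DecidableEq α] [Infinite α] (X : Finset α) (L : Finset (Finset α))
    (hX : X.Nonempty) (hL : ∀ T ∈ L, T ⊆ X ∧ 2 ≤ T.card)
    (hlin : ∀ T ∈ L, ∀ T' ∈ L, T ≠ T' → (T ∩ T').card ≤ 1) :
    (∀ F : Finset (Finset α), (∀ A ∈ F, ∀ B ∈ F, A ∪ B ∈ F) → L ⊆ F →
      ∃ x ∈ X, F.card ≤ 2 * (F.filter (fun S => x ∈ S)).card) ↔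
    ∃ c : α → ℝ, (∀ x ∈ X, 0 ≤ c x) ∧ (∃ x ∈ X, 0 < c x) ∧ ∀ x ∈ X,
      ∀ Y : Finset α → Finset α, (∀ T ∈ L, x ∈ T → (Y T).Nonempty ∧ Y T ⊆ T.erase x) →
        c x ≤ ∑ T ∈ L.filter (fun T => x ∈ T), (∑ y ∈ Y T, c y) / (2 ^ (Y T).card - 1) :=
  ⟨Pool.Agent.FS.LinearFC.weights_of_fc hX hL hlin, fun ⟨_, c0, c1, c2⟩ =>
    Pool.Agent.FS.LinearFC.fc_of_weights hL hlin c0 c1 c2⟩

end Pool.Agent.Results.MP_dbcba7_co.LinearFC
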