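import Pool.Agent.Lib.MP_dbcba7_co.Mo.Frac

namespace Pool.Agent.Results.MP_dbcba7_co.LinkCriterion

/-- Let `F` be a finite union-closed family and `X` a finite set. If every `x` in `X` has a
probability distribution on the members `T` of `F` with `x ∈ T ⊆ X` and `|T| ≤ n + 1` that gives
every other point `y` probability at most `n / (2^n - 1)` of lying in `T`, then the members of `F`
contain on average at least half of `X`. -/
theorem result {α : Type*} [DecidableEq α] (F : Finset (Finset α))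
    (hF : ∀ A ∈ F, ∀ B ∈ F, A ∪ B ∈ F) (n : ℕ) (X : Finset α)
    (h : ∀ x ∈ X, ∃ μ : Finset α → ℝ, (∀ T, 0 ≤ μ T) ∧ ∑ T ∈ F, μ T = 1 ∧
      (∀ T ∈ F, μ T ≠ 0 → x ∈ T ∧ T ⊆ X ∧ T.card ≤ n + 1) ∧
      ∀ y, y ≠ x → (2 ^ n - 1) * ∑ T ∈ F.filter (fun T => y ∈ T), μ T ≤ n) :
    F.card * X.card ≤ 2 * ∑ S ∈ F, (S ∩ X).card := by
  choose! μ h0 h1 hs hy using h
  exact Pool.Agent.Lib.MP_dbcba7_co.Mo.frac hF n X μ h0 hs h1 hy

end Pool.Agent.Results.MP_dbcba7_co.LinkCriterion
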