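import Pool.Agent.Lib.MP_dbcba7_co.Mo.Morris

namespace Pool.Agent.Results.MP_dbcba7_co.MorrisBound

/-- A finite union-closed family with more than `C((k-1) 2^(k-1), 2) * C(|X|, k-2)` members that
are `k`-element subsets of `X` has a point of `X` in at least half of its members. -/
theorem result {α : Type*} [DecidableEq α] (k : ℕ) (hk : 2 ≤ k) (F : Finset (Finset α))
    (hF : ∀ A ∈ F, ∀ B ∈ F, A ∪ B ∈ F) (X : Finset α)
    (h : ((k - 1) * 2 ^ (k - 1)).choose 2 * X.card.choose (k - 2) <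
      (F.filter (fun A => A ⊆ X ∧ A.card = k)).card) :
    ∃ x ∈ X, F.card ≤ 2 * (F.filter (fun S => x ∈ S)).card :=
  Pool.Agent.Lib.MP_dbcba7_co.Mo.morris k hk F hF X h

end Pool.Agent.Results.MP_dbcba7_co.MorrisBound
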